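import Pool.Agent.H30.AX.Targets
import Pool.Agent.H30.AV.Hom

/-!
# MP_70ba79_ag, board `aw_modules`: IN3, induction over the homogeneous ideals
-/

set_option autoImplicit false

namespace Pool.Agent.H64.AX

open MvPolynomial SC Pool.Agent.H27.LV Pool.Agent.H30.AV Pool.Agent.H30.AW Pool.Agent.H30.AX

/-- an impossible condition -/
lemma bd3_top {k : Type} [Field k] {n q m : ℕ} {Q : Set (MvPolynomial (Fin n) k)}
    {V : ∀ (K : Type) [Field K] [Algebra k K], (Fin n → K) → Derivation k K K → Prop}
    (h : ∀ (K : Type) [Field K] [Algebra k K] (y : Fin n → K) (D : Derivation k K K),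
      ¬ V K y D) : Bd3 k n q m Q V := by
  refine ⟨1, 1, one_ne_zero, le_rfl, ?_⟩
  intro a _ K _ _ _ _ S y D _ _ _ _ hV
  exact absurd hV (h K y D)

section

attribute [local instance] MvPolynomial.gradedAlgebra

theorem pf_IN3 (hPR3 : T_PR3) (hBO3 : T_BO3) : T_IN3 := by
  intro k _ _ _ m n r q Q hm hr hQ hq P hPp hPh hPs hPt
  have H : ∀ A : Ideal (MvPolynomial (Zw n) k), P ≤ A → IsHom A →
      Bd3 k n q m Q fun K _ _ y D => ∀ g ∈ A, aeval (lift2 y D) g = 0 := by
    intro A
    induction A using WellFoundedGT.induction with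
    | ind A ih =>
      intro hPA hA
      by_cases htop : A = ⊤
      · refine bd3_top fun K _ _ y D hV => ?_
        have h1 := hV 1 (by rw [htop]; trivial)
        simp at h1
      by_cases hp : A.IsPrime
      · refine hPR3 k m n r q Q hm hr hQ hq A hp hA (fun i j => hPA (hPs i j)) ?_
          (fun A' hlt hA' => ih A' hlt (hPA.trans hlt.le) hA')
        exact (trdeg_le_of_surjective (Ideal.Quotient.factorₐ k hPA)
          (Ideal.Quotient.factor_surjective hPA)).trans hPt
      · have h1 : ∃ f g : MvPolynomial (Zw n) k,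
            SetLike.IsHomogeneousElem (homogeneousSubmodule (Zw n) k) f ∧
            SetLike.IsHomogeneousElem (homogeneousSubmodule (Zw n) k) g ∧
            f * g ∈ A ∧ f ∉ A ∧ g ∉ A := by
          by_contra hc
          push Not at hc
          apply hp
          refine Ideal.IsHomogeneous.isPrime_of_homogeneous_mem_or_mem ((isHom_iff A).1 hA) htop
            fun {f g} hf hg hfg => ?_
          by_contra hc'
          push Not at hc'
          exact hc'.2 (hc f g hf hg hfg hc'.1)
        obtain ⟨f, g, ⟨d, hf⟩, ⟨e, hg⟩, hfg, hfA, hgA⟩ := h1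
        have h2 : ∀ (u : MvPolynomial (Zw n) k) (d : ℕ), u.IsHomogeneous d → u ∉ A →
            Bd3 k n q m Q fun K _ _ y D => ∀ g ∈ A ⊔ Ideal.span {u}, aeval (lift2 y D) g = 0 := by
          intro u d hu huA
          refine ih _ (lt_of_le_of_ne le_sup_left fun h3 => huA ?_) (hPA.trans le_sup_left)
            (hA.sup (isHom_span fun v hv => ⟨d, ?_⟩))
          · rw [h3]
            exact Ideal.mem_sup_right (Ideal.mem_span_singleton_self _)
          · rw [Set.mem_singleton_iff] at hv
            rw [hv]
            exact hu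
        refine hBO3 k n q m Q _ _ _ (h2 f d hf hfA) (h2 g e hg hgA) ?_
        intro K _ _ y D _ hV
        have h3 := hV _ hfg
        rw [map_mul, mul_eq_zero] at h3
        have h4 : ∀ u : MvPolynomial (Zw n) k, aeval (lift2 y D) u = 0 →
            ∀ g ∈ A ⊔ Ideal.span {u}, aeval (lift2 y D) g = 0 := by
          intro u hu v hv
          obtain ⟨f1, hf1, f2, hf2, rfl⟩ := Submodule.mem_sup.1 hv
          obtain ⟨f3, rfl⟩ := Ideal.mem_span_singleton'.1 hf2
          rw [map_add, map_mul, hV f1 hf1, hu, mul_zero, add_zero]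
        rcases h3 with h3 | h3
        · exact Or.inl (h4 f h3)
        · exact Or.inr (h4 g h3)
  exact H P le_rfl hPh

end

end Pool.Agent.H64.AX
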